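import Mathlib
import Pool.Agent.Run7.h693.RZ.Defs

/-!
# Piece LIM: locally uniform sums of holomorphic functions of several variables are holomorphic
-/

set_option autoImplicit false

open Pool.Agent.Run7.h693.RZ Filter Topology

namespace Pool.Agent.Run7.h205.RZ

theorem t_LIM : S_LIM := by
  intro n P hPd hP
  have hgs : ∀ C : ℝ, Summable (fun k : ℕ => C * (1 / 2 : ℝ) ^ k) := fun C =>
    (summable_geometric_of_lt_one (by norm_num) (by norm_num)).mul_left C
  have hsum : ∀ z : Fin n → ℂ, nrm z < 1 → Summable (fun k => P k z) := by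
    intro z hz
    obtain ⟨C, k0, hC⟩ := hP (nrm z) (nrm_nonneg z) hz
    refine Summable.of_norm_bounded_eventually_nat (hgs C) ?_
    filter_upwards [eventually_ge_atTop k0] with k hk
    exact hC k hk z le_rfl
  refine ⟨?_, hsum⟩
  intro z hz
  have hz1 : nrm z < 1 := hz
  set R : ℝ := (nrm z + 1) / 2 with hR
  have hR0 : 0 ≤ R := by have := nrm_nonneg z; rw [hR]; linarith
  have hR1 : R < 1 := by rw [hR]; linarith
  have hzR : nrm z < R := by rw [hR]; linarith
  obtain ⟨C, k0, hC⟩ := hP R hR0 hR1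
  have hopen : {w : Fin n → ℂ | nrm w < R} ∈ 𝓝 z :=
    (isOpen_lt (continuous_nrm n) continuous_const).mem_nhds hzR
  obtain ⟨δ', hδ', hball⟩ := Metric.mem_nhds_iff.1 hopen
  set δ : ℝ := δ' / 2 with hδ
  have hδ0 : 0 < δ := by rw [hδ]; linarith
  have hin : ∀ w ∈ Metric.ball z δ, ∀ y ∈ Metric.ball w δ, nrm y ≤ R := by
    intro w hw y hy
    have : y ∈ Metric.ball z δ' := by
      rw [Metric.mem_ball] at hw hy ⊢
      have := dist_triangle y w z
      rw [hδ] at hw hy
      linarith
    exact le_of_lt (hball this)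
  have hbd : ∀ (j : ℕ) (w : Fin n → ℂ), w ∈ Metric.ball z δ →
      ‖fderiv ℂ (P (j + k0)) w‖ ≤ (2 * (C * (1 / 2) ^ (j + k0))) / δ := by
    intro j w hw
    apply Complex.norm_fderiv_le_div_of_mapsTo_ball (hPd _).differentiableOn _ hδ0
    intro y hy
    rw [Metric.mem_closedBall, dist_eq_norm]
    have h1 := hC (j + k0) (Nat.le_add_left _ _) y (hin w hw y hy)
    have h2 := hC (j + k0) (Nat.le_add_left _ _) w (hin w hw w (Metric.mem_ball_self hδ0))
    refine (norm_sub_le _ _).trans ?_
    linarith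
  have hsumm : Summable (fun j : ℕ => (2 * (C * (1 / 2 : ℝ) ^ (j + k0))) / δ) :=
    (((summable_nat_add_iff k0).2 (hgs C)).mul_left 2).div_const _
  have htail : HasFDerivAt (fun y => ∑' j, P (j + k0) y) (∑' j, fderiv ℂ (P (j + k0)) z) z := by
    apply hasFDerivAt_tsum_of_isPreconnected hsumm Metric.isOpen_ball
      (convex_ball z δ).isPreconnected
      (fun j w _ => (hPd (j + k0) w).hasFDerivAt) hbd
    · exact Metric.mem_ball_self hδ0
    · exact (summable_nat_add_iff k0).2 (hsum z hz1)
    · exact Metric.mem_ball_self hδ0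
  have htot : DifferentiableAt ℂ
      (fun y => (∑ k ∈ Finset.range k0, P k y) + ∑' j, P (j + k0) y) z := by
    refine DifferentiableAt.add ?_ htail.differentiableAt
    exact DifferentiableAt.fun_sum (fun k _ => hPd k z)
  have heq : (fun y => ∑' k, P k y) =ᶠ[𝓝 z]
      (fun y => (∑ k ∈ Finset.range k0, P k y) + ∑' j, P (j + k0) y) := by
    filter_upwards [(isOpen_lt (continuous_nrm n) continuous_const).mem_nhds hz1] with y hy
    exact ((hsum y hy).sum_add_tsum_nat_add k0).symm
  exact (htot.congr_of_eventuallyEq heq).differentiableWithinAt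

end Pool.Agent.Run7.h205.RZ
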